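import Pool.Agent.Lib.MP_fc51f7_nt.Adm.D

set_option autoImplicit false

namespace Pool.Agent.Results.MP_fc51f7_nt.AllFourP3

open Pool.Agent.Lib.MP_fc51f7_nt

/-- For every admissible quadruple of distinct shifts, infinitely often each of the four shifted
numbers has at most three prime factors, counted with multiplicity. -/
theorem result (h : Fin 4 → ℕ) (hinj : Function.Injective h)
    (hadm : ∀ p : ℕ, p.Prime → ∃ r : ℕ, ∀ i, ¬ p ∣ r + h i) :
    Set.Infinite {n : ℕ | 0 < n ∧ ∀ i, ArithmeticFunction.cardFactors (n + h i) ≤ 3} := by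
  refine Set.infinite_of_forall_exists_gt fun N => ?_
  obtain ⟨x, ⟨n, h1, h2⟩, h3⟩ := ((P3.mainG hinj hadm).and (Filter.eventually_ge_atTop N)).exists
  exact ⟨n, ⟨by omega, h2⟩, by omega⟩

end Pool.Agent.Results.MP_fc51f7_nt.AllFourP3
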