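import Pool.Agent.Lib.MP_fc51f7_nt.MT.DHL
import Pool.Agent.Lib.MP_fc51f7_nt.MT.Data
import Pool.Agent.Lib.MP_fc51f7_nt.MT.Count

/-! Four primes in a bounded interval, infinitely often. -/

set_option autoImplicit false

namespace Pool.Agent.Results.MP_fc51f7_nt.FourPrimesGap

open Pool.Agent.Lib.MP_fc51f7_nt.MT

theorem result :
    {i : ℕ | Nat.nth Nat.Prime (i + 3) ≤ Nat.nth Nat.Prime i + 3120762}.Infinite := by
  refine four_primes (k := 219999) (A := 220350) ?_ certD (by norm_num) ?_
  · rw [show (16 : ℝ) = 2 ^ 4 by norm_num, Real.log_pow]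
    have := Real.log_two_lt_d9
    push_cast
    linarith
  · exact le_trans (by decide +kernel) (cnt_le (s := 1830) (by norm_num) (by norm_num))

end Pool.Agent.Results.MP_fc51f7_nt.FourPrimesGap
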