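import Pool.Agent.Lib.MP_fc51f7_nt.PrH

set_option autoImplicit false

namespace Pool.Agent.Results.MP_fc51f7_nt.PrimeEleven

open Pool.Agent.Lib.MP_fc51f7_nt

/-- For infinitely many primes `p` the product `(p+2) (p+6) (p+8)` has at most eleven prime
factors, counted with multiplicity, even when each factor is counted as having at least two. -/
theorem result : Set.Infinite {p : ℕ | p.Prime ∧
    ArithmeticFunction.cardFactors ((p + 2) * (p + 6) * (p + 8)) ≤ 11 ∧
    max (ArithmeticFunction.cardFactors (p + 2)) 2 + max (ArithmeticFunction.cardFactors (p + 6)) 2 +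
      max (ArithmeticFunction.cardFactors (p + 8)) 2 ≤ 11} := by
  refine Set.infinite_of_forall_exists_gt fun N => ?_
  obtain ⟨x, ⟨p, h1, h2, h3⟩, h4⟩ := (Pr.main.and (Filter.eventually_ge_atTop N)).exists
  rw [Fin.sum_univ_three] at h3
  change max (ArithmeticFunction.cardFactors (p + 2)) 2 +
    max (ArithmeticFunction.cardFactors (p + 6)) 2 +
    max (ArithmeticFunction.cardFactors (p + 8)) 2 ≤ 11 at h3
  refine ⟨p, ⟨h2, ?_, h3⟩, by omega⟩
  rw [ArithmeticFunction.cardFactors_mul (by positivity) (by omega),
    ArithmeticFunction.cardFactors_mul (by omega) (by omega)]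
  omega

end Pool.Agent.Results.MP_fc51f7_nt.PrimeEleven
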