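import Pool.Agent.Lib.MP_fc51f7_nt.Adm.C

set_option autoImplicit false

namespace Pool.Agent.Results.MP_fc51f7_nt.TenPrimeFactors

open Pool.Agent.Lib.MP_fc51f7_nt

/-- For every admissible quadruple of distinct shifts, infinitely often the product of the four
shifted numbers has at most ten prime factors, counted with multiplicity. -/
theorem result (h : Fin 4 → ℕ) (hinj : Function.Injective h)
    (hadm : ∀ p : ℕ, p.Prime → ∃ r : ℕ, ∀ i, ¬ p ∣ r + h i) :
    Set.Infinite {n : ℕ | 0 < n ∧ ArithmeticFunction.cardFactors (∏ i, (n + h i)) ≤ 10} := by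
  refine Set.infinite_of_forall_exists_gt fun N => ?_
  obtain ⟨x, ⟨n, h1, h2⟩, h3⟩ := ((mainG hinj hadm).and (Filter.eventually_ge_atTop N)).exists
  have h0 : 0 < n := by omega
  refine ⟨n, ⟨h0, ?_⟩, by omega⟩
  rw [Fin.prod_univ_four, ArithmeticFunction.cardFactors_mul (by positivity) (by omega),
    ArithmeticFunction.cardFactors_mul (by positivity) (by omega),
    ArithmeticFunction.cardFactors_mul (by omega) (by omega)]
  rwa [Fin.sum_univ_four] at h2

end Pool.Agent.Results.MP_fc51f7_nt.TenPrimeFactors
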